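import Pool.Agent.Helper43.RF.Fin

/-!
The exact criterion for a rational real reflex field and places of bad reduction with Frobenius
elements.
-/

set_option linter.unusedSimpArgs false
set_option linter.unusedSectionVars false
set_option linter.unusedVariables false

open Module MTPairs

namespace RF

open MTP UN AV FR

/-- **The exact criterion.** -/
theorem criterion {K : Type*} [Field K] [IsAlgClosed K] [CharZero K]
    (R : Set (ℕ × ℤ × ℕ × ℕ)) :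
    (∀ (m : Type) [Fintype m] [DecidableEq m] (Γ : Subgroup (Equiv.Perm (m → K)))
      (J : Matrix m m K) (G : Subgroup (Matrix.GeneralLinearGroup m K)) (π : Matrix m m K),
      IsStrongMTPair Γ J G π → IsReductiveRep G → IsSelfOpposite G π →
      (∀ W, IsIrrSub G W → ∃ e r k, HasSign J G W e ∧ BadAt Γ G π W r ∧
        (r ≠ 0 → HasFrob Γ G π W r k) ∧ (finrank K W, e, r, k) ∈ R ∧
        ∃ Γ₁ ≤ Γ, LocAt Γ₁ Γ G π W ∧ (Γ₁ = Γ ∨ (e = -1 ∧ (∀ θ ∈ Γ, ∀ v ∈ W, θ v ∈ W) ∧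
          ∀ d k, Odd k → 3 ≤ k → finrank K W = d ^ k → Nat.Coprime k (Γ₁.relIndex Γ)))) →
      ContainsDer J G) ↔
    ∀ n r k, r = 0 ∨ (r = 2 ^ (n - 2) ∧ (k = 1 ∨ k = 2)) ∨ (r = 2 ^ (n - 1) ∧ k = 0) →
      (5 ≤ n → n % 4 = 1 ∨ n % 4 = 2 → (2 ^ n, -1, r, k) ∉ R) ∧
      (3 ≤ n → n % 4 = 0 ∨ n % 4 = 3 → (2 ^ n, 1, r, k) ∉ R) ∧
      (4 ≤ n → Even n → (2 ^ n, 0, r, k) ∉ R) := by
  have hloc : ∀ {m : Type} [Fintype m] [DecidableEq m]
      {G : Subgroup (Matrix.GeneralLinearGroup m K)} {π : Matrix m m K}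
      (W : Submodule K (m → K)), LocAt ⊥ ⊥ G π W := by
    intro m _ _ G π W γ hγ E
    rw [Subgroup.mem_bot] at hγ
    subst hγ
    refine ⟨1, Subgroup.one_mem _, fun v _ => rfl, π, ⟨1, Subgroup.one_mem _, 1, G.one_mem,
      fun v => ?_⟩, Or.inl ⟨1, G.one_mem, fun v => ?_⟩⟩
    · rw [Units.val_one, Matrix.one_mulVec, Matrix.one_mulVec]
      rfl
    · rw [Units.val_one, Matrix.one_mulVec, Matrix.one_mulVec]
      rfl
  have hex : ∀ {d : ℕ} {e : ℤ} {r k : ℕ}, HasEx4 K d e r → (r = 0 ∨ (2 * r = d ∧ k = 0) ∨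
      (4 * r = d ∧ 0 < r ∧ (k = 1 ∨ k = 2))) → (d, e, r, k) ∈ R →
      (∀ (m : Type) [Fintype m] [DecidableEq m] (Γ : Subgroup (Equiv.Perm (m → K)))
      (J : Matrix m m K) (G : Subgroup (Matrix.GeneralLinearGroup m K)) (π : Matrix m m K),
      IsStrongMTPair Γ J G π → IsReductiveRep G → IsSelfOpposite G π →
      (∀ W, IsIrrSub G W → ∃ e r k, HasSign J G W e ∧ BadAt Γ G π W r ∧
        (r ≠ 0 → HasFrob Γ G π W r k) ∧ (finrank K W, e, r, k) ∈ R ∧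
        ∃ Γ₁ ≤ Γ, LocAt Γ₁ Γ G π W ∧ (Γ₁ = Γ ∨ (e = -1 ∧ (∀ θ ∈ Γ, ∀ v ∈ W, θ v ∈ W) ∧
          ∀ d k, Odd k → 3 ≤ k → finrank K W = d ^ k → Nat.Coprime k (Γ₁.relIndex Γ)))) →
      ContainsDer J G) → False := by
    rintro d e r k ⟨m, _, _, J, G, π, h1, h2, h3, h4, h5⟩ hk hmem h
    apply h5
    apply h m ⊥ J G π h1 h2 h3
    intro W hW
    obtain ⟨h6, h7, h8⟩ := h4 W hW
    refine ⟨e, r, k, h7, h8, fun hr => ?_, by rw [h6]; exact hmem, ⊥, le_rfl, hloc W, Or.inl rfl⟩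
    have h9 := frob_one h1 hW h8
    rcases hk with hk | ⟨hk, rfl⟩ | ⟨hk, hr0, rfl | rfl⟩
    · exact absurd hk hr
    · rwa [if_pos (by rw [h6, hk])] at h9
    · rwa [if_neg (by rw [h6]; omega)] at h9
    · exact frob_two h1 hW h8 (sig_of_so (s := 2 * r) h1.coch h3 hW.sub (by rw [h6]; omega))
        (by omega)
  have hpow : ∀ n, 3 ≤ n → 2 ^ n = 4 * 2 ^ (n - 2) ∧ 2 ^ n = 2 * 2 ^ (n - 1) := by
    intro n hn
    obtain ⟨j, rfl⟩ : ∃ j, n = j + 2 := ⟨n - 2, by omega⟩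
    have e1 : j + 2 - 2 = j := by omega
    have e2 : j + 2 - 1 = j + 1 := by omega
    rw [e1, e2]
    exact ⟨by ring, by ring⟩
  constructor
  · intro h n r k hr
    have hr' : r = 0 ∨ r = 2 ^ (n - 2) ∨ r = 2 ^ (n - 1) := by
      rcases hr with h | ⟨h, -⟩ | ⟨h, -⟩
      · exact Or.inl h
      · exact Or.inr (Or.inl h)
      · exact Or.inr (Or.inr h)
    have hk : 3 ≤ n → (r = 0 ∨ (2 * r = 2 ^ n ∧ k = 0) ∨
        (4 * r = 2 ^ n ∧ 0 < r ∧ (k = 1 ∨ k = 2))) := by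
      intro hn
      obtain ⟨p1, p2⟩ := hpow n hn
      rcases hr with h | ⟨h, hk⟩ | ⟨h, hk⟩
      · exact Or.inl h
      · exact Or.inr (Or.inr ⟨by omega, by rw [h]; positivity, hk⟩)
      · exact Or.inr (Or.inl ⟨by omega, hk⟩)
    exact ⟨fun hn hc hmem => hex (ex4_S K hn hc hr') (hk (by omega)) hmem h,
      fun hn hc hmem => hex (ex4_O K hn hc hr') (hk hn) hmem h,
      fun hn hc hmem => hex (ex4_U K hn hc hr') (hk (by omega)) hmem h⟩
  · intro hall m _ _ Γ J G π D hr hso h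
    refine containsDer D hr hso ?_ h
    rintro d e r k hmem ⟨hsp, hr'⟩
    have key : ∀ n, 3 ≤ n → d = 2 ^ n →
        r = 0 ∨ (r = 2 ^ (n - 2) ∧ (k = 1 ∨ k = 2)) ∨ (r = 2 ^ (n - 1) ∧ k = 0) := by
      intro n hn hd
      obtain ⟨p1, p2⟩ := hpow n hn
      rcases hr' with h | ⟨h, hk⟩ | ⟨h, hk⟩
      · exact Or.inl h
      · exact Or.inr (Or.inl ⟨by omega, hk⟩)
      · exact Or.inr (Or.inr ⟨by omega, hk⟩)
    rcases hsp with ⟨rfl, n, a1, a2, rfl⟩ | ⟨rfl, n, a1, a2, rfl⟩ | ⟨rfl, n, a1, a2, rfl⟩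
    · exact (hall n r k (key n (by omega) rfl)).1 a1 a2 hmem
    · exact (hall n r k (key n a1 rfl)).2.1 a1 a2 hmem
    · exact (hall n r k (key n (by omega) rfl)).2.2 a1 a2 hmem

/-- The sign of the spin representation. -/
theorem sign_cases (n : ℕ) : ((n % 4 = 1 ∨ n % 4 = 2) ∧ (-1 : ℤ) ^ (n * (n + 1) / 2) = -1) ∨
    ((n % 4 = 0 ∨ n % 4 = 3) ∧ (-1 : ℤ) ^ (n * (n + 1) / 2) = 1) := by
  obtain ⟨q, hq⟩ : ∃ q, n = 4 * q + n % 4 := ⟨n / 4, by omega⟩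
  have hr : n % 4 < 4 := Nat.mod_lt _ (by norm_num)
  generalize n % 4 = t at hq hr ⊢
  subst hq
  interval_cases t
  · right
    refine ⟨Or.inl rfl, Even.neg_one_pow ?_⟩
    have : (4 * q + 0) * (4 * q + 0 + 1) / 2 = 2 * (q * (4 * q + 1)) := by
      have e : (4 * q + 0) * (4 * q + 0 + 1) = 2 * (2 * (q * (4 * q + 1))) := by ring
      rw [e, Nat.mul_div_cancel_left _ (by norm_num)]
    rw [this]
    exact even_two_mul _
  · left
    refine ⟨Or.inl rfl, Odd.neg_one_pow ?_⟩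
    have : (4 * q + 1) * (4 * q + 1 + 1) / 2 = 2 * (q * (4 * q + 3)) + 1 := by
      have e : (4 * q + 1) * (4 * q + 1 + 1) = 2 * (2 * (q * (4 * q + 3)) + 1) := by ring
      rw [e, Nat.mul_div_cancel_left _ (by norm_num)]
    rw [this]
    exact ⟨_, rfl⟩
  · left
    refine ⟨Or.inr rfl, Odd.neg_one_pow ?_⟩
    have : (4 * q + 2) * (4 * q + 2 + 1) / 2 = 2 * (q * (4 * q + 5) + 1) + 1 := by
      have e : (4 * q + 2) * (4 * q + 2 + 1) = 2 * (2 * (q * (4 * q + 5) + 1) + 1) := by ring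
      rw [e, Nat.mul_div_cancel_left _ (by norm_num)]
    rw [this]
    exact ⟨_, rfl⟩
  · right
    refine ⟨Or.inr rfl, Even.neg_one_pow ?_⟩
    have : (4 * q + 3) * (4 * q + 3 + 1) / 2 = 2 * ((4 * q + 3) * (q + 1)) := by
      have e : (4 * q + 3) * (4 * q + 3 + 1) = 2 * (2 * ((4 * q + 3) * (q + 1))) := by ring
      rw [e, Nat.mul_div_cancel_left _ (by norm_num)]
    rw [this]
    exact even_two_mul _

end RF
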