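import Pool.Agent.Helper43.RT.Fin
import Pool.Agent.Helper43.FRS.Fin

/-!
The group theorem for a rational real reflex field and places of bad reduction with Frobenius
elements.
-/

set_option linter.unusedSimpArgs false
set_option linter.unusedSectionVars false
set_option linter.unusedVariables false

open Module MTPairs

namespace RF

open MTP UN AV AV.RR FR

variable {K : Type*} [Field K] [IsAlgClosed K] [CharZero K] {m : Type*} [Fintype m]
  [DecidableEq m] {Γ : Subgroup (Equiv.Perm (m → K))} {J : Matrix m m K}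
  {G : Subgroup (Matrix.GeneralLinearGroup m K)} {π : Matrix m m K} {W : Submodule K (m → K)}

/-- The group contains the derived group of the Lefschetz group if all the blocks are full, of
one of the types, and there are no special pairs of blocks. -/
theorem der_of_gd (D : IsStrongMTPair Γ J G π) (hr : IsReductiveRep G) [Nonempty m]
    (hgood' : ∀ ε, Bl (AA (GE G) (TE Γ) (Matrix.toLin' π)) ε → ∃ W,
      Gd (fJ J) (GE G) (TE Γ) (Matrix.toLin' π) ε W ∧
      TyF (fJ J) (GE G) (TE Γ) (Matrix.toLin' π) ε W)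
    (hnospc : ∀ ε₁ ε₂ W₁ W₂, Gd (fJ J) (GE G) (TE Γ) (Matrix.toLin' π) ε₁ W₁ →
      Gd (fJ J) (GE G) (TE Γ) (Matrix.toLin' π) ε₂ W₂ → TyU (fJ J) ε₁ W₁ →
      TyO (fJ J) (AA (GE G) (TE Γ) (Matrix.toLin' π)) ε₂ W₂ →
      Good.Lnk (GE G) (TE Γ) (Matrix.toLin' π) ε₁ ε₂ →
      ¬ Good.Spc (GE G) (TE Γ) (Matrix.toLin' π) W₁ W₂) : ContainsDer J G := by
  have U := mstr D hr
  have hpair : ∀ ε₁ ε₂, Bl (AA (GE G) (TE Γ) (Matrix.toLin' π)) ε₁ →
      Bl (AA (GE G) (TE Γ) (Matrix.toLin' π)) ε₂ → ε₁ ≠ ε₂ → ¬ IsAdj (fJ J) ε₁ ε₂ →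
      ∃ x ∈ ML (GE G) (TE Γ) (Matrix.toLin' π), x * ε₁ ≠ 0 ∧ x * ε₂ = 0 := by
    intro ε₁ ε₂ h1 h2 hne hna
    obtain ⟨W₁, g1, t1⟩ := hgood' ε₁ h1
    obtain ⟨W₂, g2, t2⟩ := hgood' ε₂ h2
    by_contra hcon
    push Not at hcon
    have hl : Good.Lnk (GE G) (TE Γ) (Matrix.toLin' π) ε₁ ε₂ := by
      intro x hx hx2
      by_contra hx1
      exact hcon x hx hx1 hx2
    exact not_lnk U g1 g2 hne hna t1 t2 (fun u1 u2 l => hnospc _ _ _ _ g1 g2 u1 u2 l)
      (fun u1 u2 l => hnospc _ _ _ _ g2 g1 u1 u2 l) hl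
  have hsm := fun ε hε => (hgood' ε hε).choose_spec.1.smp
  have hne := fun ε hε => (hgood' ε hε).choose_spec.1.ne
  have hfu := fun ε hε => (hgood' ε hε).choose_spec.1.full
  have hM := U.fullM hsm hne hfu hpair
  intro g hgJ hgT hgdet
  have hgA : Matrix.toLin' (g : Matrix m m K) ∈ AA (GE G) (TE Γ) (Matrix.toLin' π) := by
    apply U.ssA.mem_of_comm
    intro X hX
    have h1 := hgT (LinearMap.toMatrix' X) (by
      intro g' hg'
      have h2 := hX _ (U.g_mem ⟨g', hg', rfl⟩)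
      have h3 := congrArg LinearMap.toMatrix' h2
      rwa [LinearMap.toMatrix'_mul, LinearMap.toMatrix'_mul, LinearMap.toMatrix'_toLin'] at h3)
    have h4 := congrArg Matrix.toLin' h1
    rw [GA.toLin_mul, GA.toLin_mul, Matrix.toLin'_toMatrix'] at h4
    exact h4.symm
  have hgi : ∀ v w, fJ J (Matrix.toLin' (g : Matrix m m K) v)
      (Matrix.toLin' (g : Matrix m m K) w) = fJ J v w := by
    intro v w
    rw [gb_fJ, gb_fJ, Matrix.toLin'_apply, Matrix.toLin'_apply]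
    have e : ((g : Matrix m m K).mulVec v) ⬝ᵥ J.mulVec ((g : Matrix m m K).mulVec w) =
        v ⬝ᵥ ((g : Matrix m m K).transpose * J * g).mulVec w := by
      rw [← Matrix.mulVec_mulVec, ← Matrix.mulVec_mulVec, Matrix.dotProduct_mulVec v,
        Matrix.vecMul_transpose]
    rw [e, hgJ]
  have hmem := mem_of_full U hM (fun ε hε => by
      obtain ⟨W, hW, hT⟩ := hgood' ε hε
      refine ⟨W, hW.irr, hW.inb, ?_⟩
      rcases hT with (hT | hT | hT) | ⟨hT, -⟩
      · exact Or.inl hT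
      · exact Or.inr (Or.inl hT)
      · exact Or.inr (Or.inr (Or.inl hT))
      · exact Or.inr (Or.inr (Or.inr hT)))
    (fun x hx hxx => exp_mem D hr (U.ml_der hsm hne hfu hpair hx) hxx) hgA hgi (by
      intro W hW
      have hst : ∀ v ∈ W, (g : Matrix m m K).mulVecLin v ∈ W := by
        intro v hv
        exact hW.st _ hgA v hv
      have h1 := hgdet W (AV.irr_sub.mp (U.irr_iff.mpr hW)) hst
      have h2 : Rw W (Matrix.toLin' (g : Matrix m m K)) =
          (g : Matrix m m K).mulVecLin.restrict hst := by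
        ext w
        rw [Rw_coe (x := Matrix.toLin' (g : Matrix m m K)) (fun v hv => hst v hv)]
        rfl
      rw [h2]
      exact h1)
  obtain ⟨g', hg', he⟩ := hmem
  have : g = g' := by
    apply Units.ext
    apply Matrix.toLin'.injective
    exact he
  rw [this]; exact hg'

/-- The exceptional quadruples. -/
def SpinF (D : ℕ) (e : ℤ) (r k : ℕ) : Prop :=
  SpinD D e ∧ (r = 0 ∨ (4 * r = D ∧ (k = 1 ∨ k = 2)) ∨ (2 * r = D ∧ k = 0))

/-- **The group theorem.** -/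
theorem containsDer (D : IsStrongMTPair Γ J G π) (hr : IsReductiveRep G)
    (hso : IsSelfOpposite G π) {R : Set (ℕ × ℤ × ℕ × ℕ)}
    (hR : ∀ d e r k, (d, e, r, k) ∈ R → ¬ SpinF d e r k)
    (h : ∀ W, IsIrrSub G W → ∃ e r k, HasSign J G W e ∧ BadAt Γ G π W r ∧
      (r ≠ 0 → HasFrob Γ G π W r k) ∧ (finrank K W, e, r, k) ∈ R ∧
      ∃ Γ₁ ≤ Γ, LocAt Γ₁ Γ G π W ∧ (Γ₁ = Γ ∨ (e = -1 ∧ (∀ θ ∈ Γ, ∀ v ∈ W, θ v ∈ W) ∧
        ∀ d k, Odd k → 3 ≤ k → finrank K W = d ^ k → Nat.Coprime k (Γ₁.relIndex Γ)))) :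
    ContainsDer J G := by
  rcases isEmpty_or_nonempty m with hm | hm
  · intro g _ _ _
    have : g = 1 := by
      apply Units.ext
      apply Matrix.ext
      intro i
      exact (hm.false i).elim
    rw [this]; exact G.one_mem
  have U := mstr D hr
  have hso' : SOp (GE G) (Matrix.toLin' π) := sop_of hso
  have hgood : ∀ ε, Bl (AA (GE G) (TE Γ) (Matrix.toLin' π)) ε → ∀ W,
      Irr (AA (GE G) (TE Γ) (Matrix.toLin' π) : Set (Module.End K (m → K))) W → InB ε W →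
      Gd (fJ J) (GE G) (TE Γ) (Matrix.toLin' π) ε W ∧
      TyF (fJ J) (GE G) (TE Γ) (Matrix.toLin' π) ε W := by
    intro ε hε W hW hWε
    obtain ⟨e, r, k, hse, hbad, hfrob, heR, Γ₁, hΓ₁, hloc, halt⟩ :=
      h W (AV.irr_sub.mp (U.irr_iff.mpr hW))
    have hsmp : Smp (Lb (GE G) (TE Γ) (Matrix.toLin' π) ε) := by
      rcases halt with rfl | ⟨rfl, hst, hco⟩
      · exact U.smp_loc hε (fun τ hτ => U.ns_so hso' (U.tw_bl hτ hε))
          (locE_of D hr hW hε hWε hloc)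
      · exact smp_index D hr hso hW hε hWε hse hst hΓ₁ hloc hco
    obtain ⟨N, hN, hNN, hrk⟩ := exists_full D hr hso hW hε hWε
    have hpq := U.rkW_so hso' hε hW hWε _ U.p0_mem
    rcases U.classify2 hε hW hWε (U.ns_so hso' hε) hsmp hN hNN (by rw [hrk, hpq]) U.p0_mem
      hpq with ⟨e', he', hsp⟩ | hgd
    · have hee : e = e' := sign_eq D hr hso hW hε hWε hse he'
      rw [← hee] at hsp
      rcases Nat.eq_zero_or_pos r with rfl | hr0
      · exact absurd ⟨hsp, Or.inl rfl⟩ (hR _ _ _ _ heR)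
      · have hsig : HasSig Γ G π W (min (rankOn π W) (finrank K W - rankOn π W)) :=
          ⟨π, ⟨1, Γ.one_mem, 1, G.one_mem, fun v => by simp⟩, rfl⟩
        obtain ⟨hns, hsm, hne, ⟨P, hP, hPs⟩, N, h', hpl, hN0, e1, e2⟩ :=
          data D hr hε hW hWε hr0 hbad hsig (hfrob (by omega))
        rcases classifyFS U hε hW hWε hns hsm hpl hN0 hP with ⟨e'', h7, h5⟩ | ⟨h5, h6⟩
        · exfalso
          rw [e1, e2] at h5
          have hee2 : e = e'' := sign_eq' D hr (ne_of_ns (hns _ U.p0_mem)).1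
            (ne_of_ns (hns _ U.p0_mem)).2 hW hε hWε hse h7
          rw [← hee2] at h5
          rcases h5 with ⟨n, j, a1, a2, a3, -, a4, -, -, -⟩ | ⟨-, -, a1⟩
          · obtain ⟨n', -, hD⟩ : ∃ n', 3 ≤ n' ∧ finrank K W = 2 ^ n' := by
              rcases hsp with ⟨-, n, h1, -, h2⟩ | ⟨-, n, h1, -, h2⟩ | ⟨-, n, h1, -, h2⟩
              · exact ⟨n, by omega, h2⟩
              · exact ⟨n, h1, h2⟩
              · exact ⟨n, by omega, h2⟩
            exact AV.RT.choose_ne_two_pow a1 a2 a3 (a4.symm.trans hD)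
          · exact hR _ _ _ _ heR ⟨hsp, Or.inr a1⟩
        · exact ⟨⟨hε, hW, hWε, hsm, hne, hns, h5⟩, h6⟩
    · exact ⟨gd_of_good hgd, Or.inl hgd.ty⟩
  refine der_of_gd D hr (fun ε hε => ?_) ?_
  · obtain ⟨W, hW, hWε⟩ := hε.exists_irr
    exact ⟨W, hgood ε hε W hW hWε⟩
  · intro ε₁ ε₂ W₁ W₂ g1 g2 hU hO hl hs
    have h1 := U.rkW_so hso' g1.bl g1.irr g1.inb _ U.p0_mem
    rw [hs.1] at h1
    rcases hs.2.2 _ U.p0_mem with h2 | h2 <;> omega

end RF
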